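import Mathlib

set_option autoImplicit false

open Topology TopologicalSpace Set Filter

namespace Pool.Agent.Lib.MP_a55298_gt

universe u v

/-- A class of topological spaces (living in `Type u`). -/
abbrev SpaceClass := ∀ X : Type u, TopologicalSpace X → Prop

/-- `𝒳` is a `C_k`-stable class of regular `T₁` spaces. -/
structure IsCkStable (𝒳 : SpaceClass.{u}) : Prop where
  /-- all members are regular `T₁` spaces -/
  t3 : ∀ (X : Type u) [tX : TopologicalSpace X], 𝒳 X tX → T3Space X
  /-- closed under subspaces -/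
  subspace : ∀ (X : Type u) [tX : TopologicalSpace X] (s : Set X), 𝒳 X tX → 𝒳 s inferInstance
  /-- closed under homeomorphic images -/
  homeo : ∀ (X Y : Type u) [tX : TopologicalSpace X] [tY : TopologicalSpace Y],
    Nonempty (X ≃ₜ Y) → 𝒳 X tX → 𝒳 Y tY
  /-- closed under countable topological sums -/
  sum : ∀ (ι : Type) [Countable ι] (X : ι → Type u) [t : ∀ i, TopologicalSpace (X i)],
    (∀ i, 𝒳 (X i) (t i)) → 𝒳 (Σ i, X i) inferInstance
  /-- closed under countable Tychonoff products -/
  prod : ∀ (ι : Type) [Countable ι] (X : ι → Type u) [t : ∀ i, TopologicalSpace (X i)],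
    (∀ i, 𝒳 (X i) (t i)) → 𝒳 (∀ i, X i) inferInstance
  /-- closed under `C_k(X, Y)` (compact-open topology) for Lindelof `X` -/
  fn : ∀ (X Y : Type u) [tX : TopologicalSpace X] [tY : TopologicalSpace Y],
    𝒳 X tX → 𝒳 Y tY → LindelofSpace X → 𝒳 C(X, Y) ContinuousMap.compactOpen

/-- The smallest `C_k`-stable class containing `𝒳`. -/
def CkClosure (𝒳 : SpaceClass.{u}) : SpaceClass.{u} := fun X tX =>
  ∀ 𝒴 : SpaceClass.{u}, IsCkStable 𝒴 → (∀ (Z : Type u) (tZ : TopologicalSpace Z), 𝒳 Z tZ → 𝒴 Z tZ) →
    𝒴 X tX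

/-- The class of separable metrizable spaces. -/
def SepMetr : SpaceClass.{u} := fun X _ => SeparableSpace X ∧ MetrizableSpace X

/-- `U` is universal in `𝒳`: it belongs to `𝒳` and every member of `𝒳` is homeomorphic to a
subspace of `U`. -/
def IsUniversalIn (𝒳 : SpaceClass.{u}) (U : Type u) [tU : TopologicalSpace U] : Prop :=
  𝒳 U tU ∧ ∀ (Z : Type u) [tZ : TopologicalSpace Z], 𝒳 Z tZ → ∃ s : Set U, Nonempty (Z ≃ₜ s)

/-- The class of all spaces embeddable into some `C_k(A, B)`, `A`, `B` separable metrizable. -/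
def EE : SpaceClass.{u} := fun X _ =>
  ∃ (A B : Type u) (_ : TopologicalSpace A) (_ : TopologicalSpace B) (_ : MetrizableSpace A)
    (_ : SecondCountableTopology A) (_ : MetrizableSpace B) (_ : SecondCountableTopology B)
    (f : X → C(A, B)), IsEmbedding f

theorem EE.mk' {X : Type u} [tX : TopologicalSpace X] (A B : Type u) [TopologicalSpace A]
    [TopologicalSpace B] [MetrizableSpace A] [SecondCountableTopology A] [MetrizableSpace B]
    [SecondCountableTopology B] (f : X → C(A, B)) (hf : IsEmbedding f) : EE X tX :=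
  ⟨A, B, ‹_›, ‹_›, ‹_›, ‹_›, ‹_›, ‹_›, f, hf⟩

theorem EE.of_embedding {X Y : Type u} [tX : TopologicalSpace X] [tY : TopologicalSpace Y]
    (f : X → Y) (hf : IsEmbedding f) (hY : EE Y tY) : EE X tX := by
  obtain ⟨A, B, _, _, _, _, _, _, g, hg⟩ := hY
  exact EE.mk' A B (g ∘ f) (hg.comp hf)

theorem EE.of_sepMetr (X : Type u) [tX : TopologicalSpace X] [MetrizableSpace X]
    [SecondCountableTopology X] : EE X tX :=
  EE.mk' PUnit.{u+1} X (Homeomorph.continuousMapOfUnique (X := PUnit.{u+1}) (Y := X))
    (Homeomorph.isEmbedding _)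

/-! ### Sigma types -/

instance metrizableSpace_sigma {ι : Type v} {X : ι → Type u} [∀ n, TopologicalSpace (X n)]
    [∀ n, MetrizableSpace (X n)] : MetrizableSpace (Σ n, X n) :=
  let _ := fun n ↦ metrizableSpaceMetric (X n)
  let _ : MetricSpace (Σ n, X n) := Metric.Sigma.metricSpace
  inferInstance

instance metrizableSpace_sum {X Y : Type u} [TopologicalSpace X] [TopologicalSpace Y]
    [MetrizableSpace X] [MetrizableSpace Y] : MetrizableSpace (X ⊕ Y) :=
  let _ := metrizableSpaceMetric X
  let _ := metrizableSpaceMetric Y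
  let _ : MetricSpace (X ⊕ Y) := Metric.metricSpaceSum
  inferInstance

section sigma

variable {ι : Type v} {A : ι → Type u} {B : Type u} [∀ i, TopologicalSpace (A i)]
  [TopologicalSpace B]

theorem exists_finset_of_isCompact_sigma {K : Set (Σ i, A i)} (hK : IsCompact K) :
    ∃ F : Finset ι, ∀ x ∈ K, x.1 ∈ F := by
  obtain ⟨F, hF⟩ := hK.elim_finite_subcover (fun i => range (Sigma.mk i : A i → Σ i, A i))
    (fun i => isOpen_range_sigmaMk) (fun x _ => mem_iUnion.mpr ⟨x.1, ⟨x.2, rfl⟩⟩)
  refine ⟨F, fun x hx => ?_⟩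
  have := hF hx
  simp only [mem_iUnion, exists_prop] at this
  obtain ⟨i, hi, y, rfl⟩ := this
  exact hi

/-- Glue continuous maps on the summands. -/
def sigLift (g : ∀ i, C(A i, B)) : C(Σ i, A i, B) :=
  ⟨fun x => g x.1 x.2, continuous_sigma (fun i => (g i).continuous)⟩

theorem continuous_sigLift : Continuous (sigLift : (∀ i, C(A i, B)) → C(Σ i, A i, B)) := by
  rw [ContinuousMap.continuous_compactOpen]
  intro K hK U hU
  obtain ⟨F, hF⟩ := exists_finset_of_isCompact_sigma hK
  have : {g : ∀ i, C(A i, B) | MapsTo (sigLift g) K U} =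
      ⋂ i ∈ F, {g : ∀ i, C(A i, B) | MapsTo (g i) (Sigma.mk i ⁻¹' K) U} := by
    ext g
    simp only [mem_ofPred_eq, mem_iInter]
    constructor
    · intro h i _ a ha
      exact h ha
    · rintro h ⟨i, a⟩ hx
      exact h i (hF _ hx) hx
  rw [this]
  refine isOpen_biInter_finset fun i _ => ?_
  have h1 : IsOpen {f : C(A i, B) | MapsTo f (Sigma.mk i ⁻¹' K) U} :=
    ContinuousMap.isOpen_setOfPred_mapsTo (IsClosedEmbedding.sigmaMk.isCompact_preimage hK) hU
  have h2 : Continuous (fun g : ∀ i, C(A i, B) => g i) := continuous_apply i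
  exact h1.preimage h2

theorem isEmbedding_sigLift : IsEmbedding (sigLift : (∀ i, C(A i, B)) → C(Σ i, A i, B)) := by
  refine Function.LeftInverse.isEmbedding
    (f := fun (G : C(Σ i, A i, B)) (i : ι) => G.comp ⟨Sigma.mk i, continuous_sigmaMk⟩)
    (fun g => ?_) ?_ continuous_sigLift
  · funext i; ext a; rfl
  · exact continuous_pi fun i => ContinuousMap.continuous_precomp _

end sigma

theorem EE.prod (ι : Type) [Countable ι] (X : ι → Type u) [t : ∀ i, TopologicalSpace (X i)]
    (h : ∀ i, EE (X i) (t i)) : EE (∀ i, X i) inferInstance := by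
  choose A B tA tB mA sA mB sB f hf using h
  refine EE.mk' (Σ i, A i) (Σ i, B i)
    (sigLift ∘ Pi.map fun i => (fun g : X i => (⟨Sigma.mk i, continuous_sigmaMk⟩ :
      C(B i, Σ j, B j)).comp (f i g))) ?_
  refine isEmbedding_sigLift.comp (IsEmbedding.piMap fun i => ?_)
  exact (ContinuousMap.isEmbedding_postcomp _ IsEmbedding.sigmaMk).comp (hf i)

/-! ### Binary products -/

/-- Two-member family. -/
def fam (X Y : Type u) : Bool → Type u
  | false => X
  | true => Y

instance instFam (X Y : Type u) [TopologicalSpace X] [TopologicalSpace Y] :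
    ∀ b, TopologicalSpace (fam X Y b)
  | false => (inferInstance : TopologicalSpace X)
  | true => (inferInstance : TopologicalSpace Y)

/-- Pairs as functions on `Bool`. -/
def toFam {X Y : Type u} (p : X × Y) : ∀ b, fam X Y b
  | false => p.1
  | true => p.2

theorem EE.prod2 {X Y : Type u} [tX : TopologicalSpace X] [tY : TopologicalSpace Y]
    (hX : EE X tX) (hY : EE Y tY) : EE (X × Y) inferInstance := by
  have h := EE.prod Bool (fam X Y) (fun b => by cases b; exacts [hX, hY])
  refine EE.of_embedding toFam ?_ h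
  have h1 : Continuous (fun g : ∀ b, fam X Y b => (g false : X)) := continuous_apply false
  have h2 : Continuous (fun g : ∀ b, fam X Y b => (g true : Y)) := continuous_apply true
  refine Function.LeftInverse.isEmbedding
    (f := fun (g : ∀ b : Bool, fam X Y b) => ((g false : X), (g true : Y)))
    (fun p => rfl) (h1.prodMk h2) ?_
  refine continuous_pi fun b => ?_
  cases b
  · exact continuous_fst
  · exact continuous_snd

/-! ### Sums -/

theorem EE.sum (ι : Type) [Countable ι] (X : ι → Type u) [t : ∀ i, TopologicalSpace (X i)]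
    (h : ∀ i, EE (X i) (t i)) : EE (Σ i, X i) inferInstance := by
  classical
  choose A B tA tB mA sA mB sB f hf using h
  let _ : TopologicalSpace ι := ⊥
  have _ : DiscreteTopology ι := ⟨rfl⟩
  let Y : ι → Type u := fun i => C(A i, B i ⊕ PUnit.{u+1})
  have hY : ∀ i, EE (Y i) inferInstance := fun i =>
    EE.mk' (A i) (B i ⊕ PUnit.{u+1}) id IsEmbedding.id
  have hPi := EE.prod ι Y hY
  have hι : EE (ULift.{u} ι) inferInstance := EE.of_sepMetr _
  have hprod := EE.prod2 hι hPi
  let base : ∀ i, Y i := fun i => ContinuousMap.const _ (Sum.inr PUnit.unit)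
  let g : ∀ i, X i → Y i := fun i x => (⟨Sum.inl, continuous_inl⟩ : C(B i, B i ⊕ PUnit.{u+1})).comp (f i x)
  have hg : ∀ i, IsEmbedding (g i) := fun i =>
    (ContinuousMap.isEmbedding_postcomp _ IsEmbedding.inl).comp (hf i)
  have hupd : ∀ i, IsEmbedding (fun y : Y i => Function.update base i y) := by
    intro i
    refine Function.LeftInverse.isEmbedding (f := fun z : ∀ i, Y i => z i)
      (fun y => by simp) (continuous_apply i) (continuous_const.update i continuous_id)
  refine EE.of_embedding
    (fun x : Σ i, X i => ((ULift.up x.1 : ULift.{u} ι), Function.update base x.1 (g x.1 x.2))) ?_ hprod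
  constructor
  · rw [inducing_sigma]
    constructor
    · intro i
      have h1 : IsInducing (fun x : X i => Function.update base i (g i x)) :=
        ((hupd i).comp (hg i)).1
      exact IsInducing.of_comp (f := fun x : X i => ((ULift.up i : ULift.{u} ι),
        Function.update base i (g i x))) (g := Prod.snd)
        (continuous_const.prodMk h1.continuous) continuous_snd h1
    · intro i
      refine ⟨{p | p.1 = ULift.up i}, ?_, ?_⟩
      · exact (isOpen_discrete ({ULift.up i} : Set (ULift.{u} ι))).preimage continuous_fst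
      · intro x
        simp
  · rintro ⟨i, x⟩ ⟨j, y⟩ hxy
    simp only [Prod.mk.injEq, ULift.up.injEq] at hxy
    obtain ⟨rfl, h2⟩ := hxy
    have h3 := congrFun h2 i
    simp only [Function.update_self] at h3
    rw [(hg i).injective h3]

end Pool.Agent.Lib.MP_a55298_gt
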