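import Pool.Agent.Lib.MP_a55298_gt.Basic

set_option autoImplicit false

open Topology TopologicalSpace Set Filter

namespace Pool.Agent.Lib.MP_a55298_gt

universe u v w

/-- Evaluation on a compact family of continuous maps on a metrizable space is continuous. -/
theorem continuous_eval_compact {A : Type u} {B : Type v} {L : Type w} [TopologicalSpace A]
    [MetrizableSpace A] [TopologicalSpace B] [TopologicalSpace L] [CompactSpace L] [T2Space L]
    (j : L → C(A, B)) (hj : Continuous j) : Continuous (fun p : A × L => j p.2 p.1) := by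
  let Ψ : A → C(L, B) := fun a => ⟨fun l => j l a, (continuous_eval_const a).comp hj⟩
  have hΨ : Continuous Ψ := by
    rw [continuous_iff_seqContinuous]
    intro s a hs
    let K : Set A := insert a (range s)
    have hK : IsCompact K := hs.isCompact_insert_range
    have _ : CompactSpace K := isCompact_iff_compactSpace.mp hK
    let r : C(L, C(K, B)) := ⟨fun l => (j l).restrict K, (ContinuousMap.continuous_restrict K).comp hj⟩
    have h1 : Continuous (Function.uncurry fun x y => r x y) :=
      ContinuousMap.continuous_uncurry_of_continuous r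
    have h2 : Continuous (fun p : K × L => r p.2 p.1) := h1.comp continuous_swap
    let Φ : C(K, C(L, B)) := ContinuousMap.curry ⟨fun p : K × L => r p.2 p.1, h2⟩
    have hΦ : ∀ k : K, Φ k = Ψ k := by
      intro k
      ext l
      rfl
    let s' : ℕ → K := fun n => ⟨s n, mem_insert_of_mem _ (mem_range_self n)⟩
    let a' : K := ⟨a, mem_insert _ _⟩
    have hs' : Tendsto s' atTop (𝓝 a') := by
      rw [tendsto_subtype_rng]
      exact hs
    have h3 := (Φ.continuous.tendsto a').comp hs'
    have h4 : (fun n => Ψ (s n)) = Φ ∘ s' := by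
      funext n
      exact (hΦ (s' n)).symm
    rw [Function.comp_def, h4]
    rw [← hΦ a']
    exact h3
  have h5 : Continuous (fun p : A × L => (Ψ p.1) p.2) := by
    have := ContinuousEval.continuous_eval (F := C(L, B)) (X := L) (Y := B)
    exact this.comp ((hΨ.comp continuous_fst).prodMk continuous_snd)
  exact h5

section enum

variable (A : Type u) (B : Type v) [TopologicalSpace A] [SecondCountableTopology A]
  [TopologicalSpace B] [SecondCountableTopology B]

theorem exists_enum : ∃ (PU : ℕ → Set A) (PV : ℕ → Set B), PU 0 = ∅ ∧ (∀ n, IsOpen (PU n)) ∧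
    (∀ n, IsOpen (PV n)) ∧ ∀ V ∈ countableBasis B, ∀ (a : A), ∀ N ∈ 𝓝 a, ∃ n, a ∈ PU n ∧
      PU n ⊆ N ∧ PV n = V := by
  have hA : (insert ∅ (countableBasis A)).Countable := (countable_countableBasis A).insert _
  have hB : (insert ∅ (countableBasis B)).Countable := (countable_countableBasis B).insert _
  obtain ⟨bA, hbA⟩ := hA.exists_eq_range (insert_nonempty _ _)
  obtain ⟨bB, hbB⟩ := hB.exists_eq_range (insert_nonempty _ _)
  have hoA : ∀ n, IsOpen (bA n) := by
    intro n
    have : bA n ∈ insert ∅ (countableBasis A) := by rw [hbA]; exact mem_range_self n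
    rcases this with h | h
    · rw [h]; exact isOpen_empty
    · exact isOpen_of_mem_countableBasis h
  have hoB : ∀ n, IsOpen (bB n) := by
    intro n
    have : bB n ∈ insert ∅ (countableBasis B) := by rw [hbB]; exact mem_range_self n
    rcases this with h | h
    · rw [h]; exact isOpen_empty
    · exact isOpen_of_mem_countableBasis h
  refine ⟨fun n => match n with | 0 => ∅ | k+1 => bA (Nat.unpair k).1,
    fun n => match n with | 0 => ∅ | k+1 => bB (Nat.unpair k).2, rfl, ?_, ?_, ?_⟩
  · intro n
    cases n with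
    | zero => exact isOpen_empty
    | succ k => exact hoA _
  · intro n
    cases n with
    | zero => exact isOpen_empty
    | succ k => exact hoB _
  · intro V hV a N hN
    obtain ⟨U, hU, haU, hUN⟩ := (isBasis_countableBasis A).mem_nhds_iff.mp hN
    have h1 : U ∈ range bA := by rw [← hbA]; exact mem_insert_of_mem _ hU
    have h2 : V ∈ range bB := by rw [← hbB]; exact mem_insert_of_mem _ hV
    obtain ⟨k, hk⟩ := h1
    obtain ⟨l, hl⟩ := h2
    refine ⟨Nat.pair k l + 1, ?_, ?_, ?_⟩
    · simp only [Nat.unpair_pair]; rw [hk]; exact haU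
    · simp only [Nat.unpair_pair]; rw [hk]; exact hUN
    · simp only [Nat.unpair_pair]; rw [hl]

end enum

/-- Every space embeddable into `C_k(A, B)`, with `A`, `B` separable metrizable, is a
compact-covering image of a separable metrizable space. -/
theorem exists_covering {X : Type u} {A : Type v} {B : Type w} [TopologicalSpace X]
    [TopologicalSpace A] [TopologicalSpace B] [MetrizableSpace A] [SecondCountableTopology A]
    [MetrizableSpace B] [SecondCountableTopology B] (j : X → C(A, B)) (hj : IsEmbedding j) :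
    ∃ (T : Type) (_ : TopologicalSpace T) (_ : MetrizableSpace T) (_ : SecondCountableTopology T)
      (q : C(T, X)), ∀ K : Set X, IsCompact K → ∃ L : Set T, IsCompact L ∧ q '' L = K := by
  classical
  obtain ⟨PU, PV, hPU0, hPUo, hPVo, henum⟩ := exists_enum A B
  -- the coding relation
  let c1 : X → ℕ → Prop := fun x n => MapsTo (j x) (PU n) (closure (PV n))
  let R : X → (Finset ℕ → ℕ) → Prop := fun x σ =>
    (∀ F, c1 x (σ F)) ∧ (∀ a, ∀ V ∈ 𝓝 (j x a), ∃ F, a ∈ PU (σ F) ∧ closure (PV (σ F)) ⊆ V)
  have huniq : ∀ x y σ, R x σ → R y σ → x = y := by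
    intro x y σ hx hy
    apply hj.injective
    ext a
    by_contra hne
    have hV : {j y a}ᶜ ∈ 𝓝 (j x a) := isOpen_compl_singleton.mem_nhds hne
    obtain ⟨F, haF, hFV⟩ := hx.2 a _ hV
    exact hFV (hy.1 F haF) rfl
  let T : Type := {σ : Finset ℕ → ℕ // ∃ x, R x σ}
  let q : T → X := fun σ => Classical.choose σ.2
  have hq : ∀ σ : T, R (q σ) σ.1 := fun σ => Classical.choose_spec σ.2
  have hqc : Continuous q := by
    rw [hj.continuous_iff, ContinuousMap.continuous_compactOpen]
    intro K hK U hU
    rw [isOpen_iff_mem_nhds]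
    intro σ₀ hσ₀
    let I := {F : Finset ℕ // closure (PV (σ₀.1 F)) ⊆ U}
    obtain ⟨t, ht⟩ := hK.elim_finite_subcover (fun F : I => PU (σ₀.1 F.1)) (fun F => hPUo _) (by
      intro a ha
      obtain ⟨F, haF, hF⟩ := (hq σ₀).2 a U (hU.mem_nhds (hσ₀ ha))
      exact mem_iUnion.mpr ⟨⟨F, hF⟩, haF⟩)
    have hN : {σ : T | ∀ F ∈ t, σ.1 F.1 = σ₀.1 F.1} ∈ 𝓝 σ₀ := by
      have hopen : IsOpen {σ : T | ∀ F ∈ t, σ.1 F.1 = σ₀.1 F.1} := by
        have : {σ : T | ∀ F ∈ t, σ.1 F.1 = σ₀.1 F.1} =
            ⋂ F ∈ t, {σ : T | σ.1 F.1 = σ₀.1 F.1} := by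
          ext σ; simp
        rw [this]
        refine isOpen_biInter_finset fun F _ => ?_
        have hc : Continuous (fun σ : T => σ.1 F.1) :=
          (continuous_apply F.1).comp continuous_subtype_val
        exact (isOpen_discrete {σ₀.1 F.1}).preimage hc
      exact hopen.mem_nhds (fun F _ => rfl)
    filter_upwards [hN] with σ hσ
    intro a ha
    have := ht ha
    simp only [mem_iUnion, exists_prop] at this
    obtain ⟨F, hFt, haF⟩ := this
    have h1 := (hq σ).1 F.1
    rw [hσ F hFt] at h1
    exact F.2 (h1 haF)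
  refine ⟨T, inferInstance, IsEmbedding.subtypeVal.metrizableSpace,
    IsEmbedding.subtypeVal.secondCountableTopology, ⟨q, hqc⟩, ?_⟩
  intro K hK
  -- good finite families
  let good : Finset ℕ → Prop := fun F => ∀ x ∈ K, ∃ p ∈ F, c1 x p
  let C : Finset ℕ → Set ℕ := fun F => if good F then (F : Set ℕ) else {0}
  have hC0 : ∀ x, c1 x 0 := by
    intro x a ha
    rw [hPU0] at ha
    exact absurd ha (notMem_empty a)
  -- key lemma
  have hkey : ∀ x ∈ K, ∀ a, ∀ V ∈ 𝓝 (j x a), ∃ F, good F ∧
      ∀ p ∈ F, c1 x p → a ∈ PU p ∧ closure (PV p) ⊆ V := by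
    intro x hx a V hV
    have _ : CompactSpace K := isCompact_iff_compactSpace.mp hK
    have _ : T2Space X := hj.t2Space
    have hev : Continuous (fun p : A × K => j p.2 p.1) :=
      continuous_eval_compact (fun y : K => j y) (hj.continuous.comp continuous_subtype_val)
    have hloc : ∀ y : K, ∃ p : ℕ, ∃ O : Set K, IsOpen O ∧ y ∈ O ∧ (∀ z ∈ O, c1 z p) ∧
        (c1 x p → a ∈ PU p ∧ closure (PV p) ⊆ V) := by
      intro y
      by_cases hxy : j y a = j x a
      · obtain ⟨V', hV'b, hyV', hV'cl⟩ :=
          (isBasis_countableBasis B).exists_closure_subset (show V ∈ 𝓝 (j y a) by rw [hxy]; exact hV)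
        have hO := (hev.isOpen_preimage V' ((isBasis_countableBasis B).isOpen hV'b)).mem_nhds
          (show (a, y) ∈ _ from hyV')
        rw [mem_nhds_prod_iff'] at hO
        obtain ⟨N, O, hNo, haN, hOo, hyO, hsub⟩ := hO
        obtain ⟨n, han, hnN, hnV⟩ := henum V' hV'b a N (hNo.mem_nhds haN)
        refine ⟨n, O, hOo, hyO, ?_, ?_⟩
        · intro z hz b hb
          have : (b, z) ∈ N ×ˢ O := ⟨hnN hb, hz⟩
          rw [hnV]
          exact subset_closure (hsub this)
        · intro _
          rw [hnV]
          exact ⟨han, hV'cl⟩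
      · have hW : {j x a}ᶜ ∈ 𝓝 (j y a) := isOpen_compl_singleton.mem_nhds hxy
        obtain ⟨V', hV'b, hyV', hV'cl⟩ := (isBasis_countableBasis B).exists_closure_subset hW
        have hO := (hev.isOpen_preimage V' ((isBasis_countableBasis B).isOpen hV'b)).mem_nhds
          (show (a, y) ∈ _ from hyV')
        rw [mem_nhds_prod_iff'] at hO
        obtain ⟨N, O, hNo, haN, hOo, hyO, hsub⟩ := hO
        obtain ⟨n, han, hnN, hnV⟩ := henum V' hV'b a N (hNo.mem_nhds haN)
        refine ⟨n, O, hOo, hyO, ?_, ?_⟩
        · intro z hz b hb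
          have : (b, z) ∈ N ×ˢ O := ⟨hnN hb, hz⟩
          rw [hnV]
          exact subset_closure (hsub this)
        · intro hc
          exfalso
          have h1 := hc han
          rw [hnV] at h1
          exact hV'cl h1 rfl
    choose p O hOo hyO hOc hxc using hloc
    obtain ⟨t, ht⟩ := isCompact_univ.elim_finite_subcover O hOo
      (fun y _ => mem_iUnion.mpr ⟨y, hyO y⟩)
    refine ⟨t.image p, ?_, ?_⟩
    · intro y hy
      have := ht (mem_univ (⟨y, hy⟩ : K))
      simp only [mem_iUnion, exists_prop] at this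
      obtain ⟨z, hzt, hyz⟩ := this
      exact ⟨p z, Finset.mem_image_of_mem p hzt, hOc z ⟨y, hy⟩ hyz⟩
    · intro n hn hc
      obtain ⟨z, hzt, rfl⟩ := Finset.mem_image.mp hn
      exact hxc z hc
  -- the compact set
  let P : Set (Finset ℕ → ℕ) := Set.pi univ C
  have hCfin : ∀ F, (C F).Finite := by
    intro F
    by_cases h : good F
    · simp only [C, h, if_true]; exact F.finite_toSet
    · simp only [C, h, if_false]; exact finite_singleton 0
  have hPc : IsCompact P := isCompact_univ_pi fun F => (hCfin F).isCompact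
  let Z : Set (X × (Finset ℕ → ℕ)) := {p | ∀ F, c1 p.1 (p.2 F)}
  have hZ : IsClosed Z := by
    have : Z = ⋂ F : Finset ℕ, ⋂ n : ℕ, {p | p.2 F = n}ᶜ ∪ {p | c1 p.1 n} := by
      ext p
      simp only [Z, mem_ofPred_eq, mem_iInter, mem_union, mem_compl_iff]
      constructor
      · intro h F n
        by_cases hn : p.2 F = n
        · right; rw [← hn]; exact h F
        · left; exact hn
      · intro h F
        rcases h F (p.2 F) with h1 | h1
        · exact absurd rfl h1
        · exact h1
    rw [this]
    refine isClosed_iInter fun F => isClosed_iInter fun n => ?_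
    refine IsClosed.union ?_ ?_
    · rw [isClosed_compl_iff]
      have hc : Continuous (fun p : X × (Finset ℕ → ℕ) => p.2 F) :=
        (continuous_apply F).comp continuous_snd
      exact (isOpen_discrete {n}).preimage hc
    · have h1 : IsClosed {f : C(A, B) | MapsTo f (PU n) (closure (PV n))} :=
        ContinuousMap.isClosed_setOfPred_mapsTo isClosed_closure _
      exact h1.preimage (hj.continuous.comp continuous_fst)
  let S : Set (X × (Finset ℕ → ℕ)) := (K ×ˢ P) ∩ Z
  have hS : IsCompact S := (hK.prod hPc).inter_right hZ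
  have hSR : ∀ p ∈ S, R p.1 p.2 := by
    rintro ⟨x, σ⟩ ⟨⟨hxK, hσP⟩, hz⟩
    refine ⟨hz, ?_⟩
    intro a V hV
    obtain ⟨F, hgood, hF⟩ := hkey x hxK a V hV
    have h1 := hσP F (mem_univ F)
    simp only [C, hgood, if_true] at h1
    exact ⟨F, hF _ h1 (hz F)⟩
  let K' : Set (Finset ℕ → ℕ) := Prod.snd '' S
  have hK' : IsCompact K' := hS.image continuous_snd
  have hK'T : ∀ σ ∈ K', ∃ x, R x σ := by
    rintro _ ⟨p, hp, rfl⟩
    exact ⟨p.1, hSR p hp⟩
  refine ⟨Subtype.val ⁻¹' K', ?_, ?_⟩
  · rw [Subtype.isCompact_iff]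
    have : (Subtype.val '' (Subtype.val ⁻¹' K' : Set T)) = K' := by
      apply Subset.antisymm (image_preimage_subset _ _)
      intro σ hσ
      exact ⟨⟨σ, hK'T σ hσ⟩, hσ, rfl⟩
    rw [this]; exact hK'
  · ext x
    constructor
    · rintro ⟨σ, ⟨p, hp, hpσ⟩, rfl⟩
      have h1 := hSR p hp
      rw [hpσ] at h1
      have h2 := huniq _ _ _ (hq σ) h1
      change q σ ∈ K
      rw [h2]
      exact hp.1.1
    · intro hx
      have hσ : ∀ F, ∃ n ∈ C F, c1 x n := by
        intro F
        by_cases h : good F
        · obtain ⟨p, hp, hc⟩ := h x hx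
          exact ⟨p, by simp only [C, h, if_true]; exact hp, hc⟩
        · exact ⟨0, by simp only [C, h, if_false]; exact rfl, hC0 x⟩
      choose σ hσC hσc using hσ
      have hmem : (x, σ) ∈ S := ⟨⟨hx, fun F _ => hσC F⟩, hσc⟩
      have hR := hSR _ hmem
      refine ⟨⟨σ, x, hR⟩, ⟨(x, σ), hmem, rfl⟩, ?_⟩
      exact huniq _ _ _ (hq ⟨σ, x, hR⟩) hR

/-- Precomposition with a compact-covering map is an embedding. -/
theorem isEmbedding_precomp_covering {T : Type u} {X : Type v} {Y : Type w} [TopologicalSpace T]
    [TopologicalSpace X] [TopologicalSpace Y] (q : C(T, X))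
    (hq : ∀ K : Set X, IsCompact K → ∃ L : Set T, IsCompact L ∧ q '' L = K) :
    IsEmbedding (fun f : C(X, Y) => f.comp q) := by
  refine ⟨⟨le_antisymm (ContinuousMap.continuous_precomp q).le_induced ?_⟩, ?_⟩
  · rw [ContinuousMap.compactOpen_eq (X := X)]
    refine le_generateFrom ?_
    rintro _ ⟨K, hK, U, hU, rfl⟩
    obtain ⟨L, hL, hLK⟩ := hq K hK
    have h1 : IsOpen {f : C(T, Y) | MapsTo f L U} := ContinuousMap.isOpen_setOfPred_mapsTo hL hU
    refine ⟨_, h1, ?_⟩
    ext f
    simp only [mem_preimage, mem_ofPred_eq]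
    rw [← hLK]
    constructor
    · rintro h _ ⟨t, ht, rfl⟩
      exact h ht
    · intro h t ht
      exact h ⟨t, ht, rfl⟩
  · intro f g hfg
    ext x
    obtain ⟨L, _, hL⟩ := hq {x} isCompact_singleton
    have hx : x ∈ q '' L := by rw [hL]; rfl
    obtain ⟨t, _, rfl⟩ := hx
    exact DFunLike.congr_fun hfg t

theorem continuous_iff_restrict {Z : Type u} {A : Type v} {B : Type w} [TopologicalSpace Z]
    [TopologicalSpace A] [TopologicalSpace B] {f : Z → C(A, B)} :
    Continuous f ↔ ∀ L : Set A, IsCompact L → Continuous fun z => (f z).restrict L := by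
  constructor
  · intro h L _
    exact (ContinuousMap.continuous_restrict L).comp h
  · intro h
    rw [ContinuousMap.compactOpen_eq_iInf_induced]
    refine continuous_iInf_rng.2 fun L => continuous_iInf_rng.2 fun hL =>
      continuous_induced_rng.2 (h L hL)

/-- Currying is continuous (Hausdorff domains). -/
theorem continuous_curry' {T : Type u} {A : Type v} {B : Type w} [TopologicalSpace T]
    [TopologicalSpace A] [TopologicalSpace B] [T2Space T] [T2Space A] :
    Continuous (ContinuousMap.curry : C(T × A, B) → C(T, C(A, B))) := by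
  rw [continuous_iff_restrict]
  intro K hK
  have _ : CompactSpace K := isCompact_iff_compactSpace.mp hK
  apply ContinuousMap.continuous_of_continuous_uncurry
  rw [continuous_iff_restrict]
  intro L hL
  have _ : CompactSpace L := isCompact_iff_compactSpace.mp hL
  apply ContinuousMap.continuous_of_continuous_uncurry
  let incl : C(K × L, T × A) := ⟨fun p => (p.1, p.2),
    (continuous_subtype_val.comp continuous_fst).prodMk
      (continuous_subtype_val.comp continuous_snd)⟩
  have h1 : Continuous (fun p : C(T × A, B) × (K × L) => (p.1.comp incl) p.2) := by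
    have h2 := ContinuousEval.continuous_eval (F := C(K × L, B)) (X := K × L) (Y := B)
    exact h2.comp (((ContinuousMap.continuous_precomp incl).comp continuous_fst).prodMk
      continuous_snd)
  have h3 : Continuous (fun p : (C(T × A, B) × K) × L => (p.1.1, (p.1.2, p.2))) := by fun_prop
  exact h1.comp h3

/-- Uncurrying, for metrizable domains. -/
theorem exists_uncurry_embedding {T : Type u} {A : Type v} {B : Type w} [TopologicalSpace T]
    [TopologicalSpace A] [TopologicalSpace B] [MetrizableSpace T] [MetrizableSpace A] :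
    ∃ Φ : C(T, C(A, B)) → C(T × A, B), IsEmbedding Φ := by
  have hcont : ∀ F : C(T, C(A, B)), Continuous (fun p : T × A => F p.1 p.2) := by
    intro F
    rw [continuous_iff_seqContinuous]
    intro s p hs
    let L : Set T := insert p.1 (range fun n => (s n).1)
    have hs1 : Tendsto (fun n => (s n).1) atTop (𝓝 p.1) := (continuous_fst.tendsto p).comp hs
    have hL : IsCompact L := hs1.isCompact_insert_range
    have _ : CompactSpace L := isCompact_iff_compactSpace.mp hL
    have h1 := continuous_eval_compact (fun l : L => F l) (F.continuous.comp continuous_subtype_val)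
    let s' : ℕ → A × L := fun n => ((s n).2, ⟨(s n).1, mem_insert_of_mem _ (mem_range_self n)⟩)
    have hs' : Tendsto s' atTop (𝓝 (p.2, (⟨p.1, mem_insert _ _⟩ : L))) := by
      rw [nhds_prod_eq]
      refine Tendsto.prodMk ((continuous_snd.tendsto p).comp hs) ?_
      rw [tendsto_subtype_rng]
      exact hs1
    exact (h1.tendsto _).comp hs'
  let Φ : C(T, C(A, B)) → C(T × A, B) := fun F => ⟨fun p => F p.1 p.2, hcont F⟩
  refine ⟨Φ, ?_⟩
  have hΦ : Continuous Φ := by
    rw [ContinuousMap.continuous_compactOpen]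
    intro K hK U hU
    -- compact projections
    let K1 : Set T := Prod.fst '' K
    let K2 : Set A := Prod.snd '' K
    have hK1 : IsCompact K1 := hK.image continuous_fst
    have hK2 : IsCompact K2 := hK.image continuous_snd
    have _ : CompactSpace K1 := isCompact_iff_compactSpace.mp hK1
    have _ : CompactSpace K2 := isCompact_iff_compactSpace.mp hK2
    -- restrict
    let ρ : C(T, C(A, B)) → C(K1, C(K2, B)) := fun F =>
      ((⟨fun f : C(A, B) => f.restrict K2, ContinuousMap.continuous_restrict K2⟩ :
        C(C(A, B), C(K2, B))).comp F).restrict K1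
    have hρ : Continuous ρ := (ContinuousMap.continuous_restrict K1).comp
      (ContinuousMap.continuous_postcomp _)
    have hunc : Continuous (ContinuousMap.uncurry : C(K1, C(K2, B)) → C(K1 × K2, B)) :=
      ContinuousMap.continuous_uncurry
    let K' : Set (K1 × K2) := {p | ((p.1 : T), (p.2 : A)) ∈ K}
    have hK' : IsCompact K' := by
      have hcl : IsClosed K' := hK.isClosed.preimage
        ((continuous_subtype_val.comp continuous_fst).prodMk
          (continuous_subtype_val.comp continuous_snd))
      exact hcl.isCompact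
    have h1 : IsOpen {f : C(K1 × K2, B) | MapsTo f K' U} :=
      ContinuousMap.isOpen_setOfPred_mapsTo hK' hU
    have h2 := h1.preimage (hunc.comp hρ)
    convert h2 using 1
    ext F
    simp only [mem_preimage, mem_ofPred_eq, Function.comp_apply]
    constructor
    · rintro h ⟨⟨t, ht⟩, ⟨a, ha⟩⟩ hta
      exact h hta
    · rintro h ⟨t, a⟩ hta
      exact h (x := (⟨t, ⟨(t, a), hta, rfl⟩⟩, ⟨a, ⟨(t, a), hta, rfl⟩⟩)) hta
  exact Function.LeftInverse.isEmbedding (f := ContinuousMap.curry) (fun F => by ext t a; rfl)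
    continuous_curry' hΦ

end Pool.Agent.Lib.MP_a55298_gt
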