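import Pool.Agent.Lib.MP_a55298_gt.Covering

set_option autoImplicit false

open Topology TopologicalSpace Set Filter

namespace Pool.Agent.Lib.MP_a55298_gt

universe u v w

theorem EE.fn (X Y : Type u) [tX : TopologicalSpace X] [tY : TopologicalSpace Y]
    (hX : EE X tX) (hY : EE Y tY) : EE C(X, Y) ContinuousMap.compactOpen := by
  obtain ⟨A', B', _, _, _, _, _, _, j, hj⟩ := hX
  obtain ⟨A, B, _, _, _, _, _, _, g, hg⟩ := hY
  obtain ⟨T, tT, mT, sT, q, hq⟩ := exists_covering j hj
  have _ : MetrizableSpace (ULift.{u} T) := IsEmbedding.uliftDown.metrizableSpace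
  have _ : SecondCountableTopology (ULift.{u} T) :=
    IsEmbedding.uliftDown.secondCountableTopology
  obtain ⟨Φ, hΦ⟩ := exists_uncurry_embedding (T := ULift.{u} T) (A := A) (B := B)
  let d : C(ULift.{u} T, T) := ⟨ULift.down, continuous_uliftDown⟩
  have hq' : ∀ K : Set X, IsCompact K → ∃ L : Set (ULift.{u} T), IsCompact L ∧ (q.comp d) '' L = K := by
    intro K hK
    obtain ⟨L, hL, hLK⟩ := hq K hK
    refine ⟨ULift.up '' L, hL.image continuous_uliftUp, ?_⟩
    rw [← hLK, image_image]
    rfl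
  have h1 := isEmbedding_precomp_covering (Y := Y) (q.comp d) hq'
  have h2 : IsEmbedding (fun f : C(ULift.{u} T, Y) =>
      (⟨g, hg.continuous⟩ : C(Y, C(A, B))).comp f) := ContinuousMap.isEmbedding_postcomp _ hg
  exact EE.mk' (ULift.{u} T × A) B _ (hΦ.comp (h2.comp h1))

theorem EE.isCkStable : IsCkStable.{u} EE where
  t3 := by
    intro X tX h
    obtain ⟨A, B, _, _, _, _, _, _, j, hj⟩ := h
    exact hj.t3Space
  subspace := by
    intro X tX s h
    exact EE.of_embedding Subtype.val IsEmbedding.subtypeVal h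
  homeo := by
    rintro X Y tX tY ⟨e⟩ h
    exact EE.of_embedding e.symm e.symm.isEmbedding h
  sum := by
    intro ι _ X t h
    exact EE.sum ι X h
  prod := by
    intro ι _ X t h
    exact EE.prod ι X h
  fn := by
    intro X Y tX tY hX hY _
    exact EE.fn X Y hX hY

theorem EE.of_mem_sepMetr (X : Type u) (tX : TopologicalSpace X) (h : SepMetr X tX) : EE X tX := by
  obtain ⟨h1, h2⟩ := h
  have : SecondCountableTopology X := by
    let _ := metrizableSpaceMetric X
    exact UniformSpace.secondCountable_of_separable X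
  exact EE.of_sepMetr X

theorem EE.of_mem_closure (X : Type u) (tX : TopologicalSpace X) (h : CkClosure SepMetr X tX) :
    EE X tX := h EE EE.isCkStable EE.of_mem_sepMetr

/-! ### The counting argument -/

/-- Neighbourhoods in `C(M, Y)`. -/
theorem hasBasis_nhds_metric {M : Type u} {Y : Type v} [TopologicalSpace M] [MetricSpace Y]
    (g : C(M, Y)) : (𝓝 g).HasBasis (fun p : Set M × ℕ => IsCompact p.1 ∧ True)
      (fun p => {h | ∀ m ∈ p.1, dist (h m) (g m) < 1 / ((p.2 : ℝ) + 1)}) := by
  have h1 := (Metric.uniformity_basis_dist_inv_nat_succ (α := Y)).compactConvergenceUniformity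
    (α := M)
  have h2 := nhds_basis_uniformity' h1 (x := g)
  refine h2.to_hasBasis ?_ ?_
  · intro p hp
    refine ⟨p, hp, ?_⟩
    intro h hh m hm
    simp only [mem_ofPred_eq]
    rw [dist_comm]
    exact hh m hm
  · intro p hp
    refine ⟨p, hp, ?_⟩
    intro h hh m hm
    rw [dist_comm]
    exact hh m hm

/-- The set of triples `(K, n, x)` coded by an embedding. -/
def codeSet {M : Type u} {Y : Type v} [TopologicalSpace M] [MetricSpace Y] (N : Set ℝ)
    (e : C(N, ℝ) → C(M, Y)) : Set (Compacts M × ℕ × ℝ) :=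
  {p | ∃ h : p.2.2 ∈ N, ∀ f : C(N, ℝ), (∀ m ∈ p.1, dist (e f m) (e 0 m) < 1 / ((p.2.1 : ℝ) + 1)) →
    |f ⟨p.2.2, h⟩| ≤ 1}

theorem codeSet_spec {M : Type u} {Y : Type v} [TopologicalSpace M] [MetrizableSpace M]
    [SecondCountableTopology M] [MetricSpace Y] (N : Set ℝ)
    (e : C(N, ℝ) → C(M, Y)) (he : IsEmbedding e) :
    N = {x | ∃ (K : Compacts M) (n : ℕ), (K, n, x) ∈ closure (codeSet N e)} := by
  ext x
  constructor
  · intro hx
    have hW : {f : C(N, ℝ) | |f ⟨x, hx⟩| < 1} ∈ 𝓝 (0 : C(N, ℝ)) := by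
      have hc : Continuous (fun f : C(N, ℝ) => |f ⟨x, hx⟩|) :=
        (continuous_eval_const (⟨x, hx⟩ : N)).abs
      refine (isOpen_lt hc continuous_const).mem_nhds ?_
      simp
    rw [he.nhds_eq_comap, mem_comap] at hW
    obtain ⟨s, hs, hsW⟩ := hW
    obtain ⟨⟨K, n⟩, ⟨hK, _⟩, hKn⟩ := (hasBasis_nhds_metric (e 0)).mem_iff.mp hs
    refine ⟨⟨K, hK⟩, n, subset_closure ⟨hx, ?_⟩⟩
    intro f hf
    have : e f ∈ s := hKn hf
    exact le_of_lt (hsW this)
  · rintro ⟨K, n, hKn⟩
    obtain ⟨p, hp, hlim⟩ := mem_closure_iff_seq_limit.mp hKn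
    have hlim1 : Tendsto (fun j => (p j).1) atTop (𝓝 K) := (continuous_fst.tendsto _).comp hlim
    have hlim2 : Tendsto (fun j => (p j).2.1) atTop (𝓝 n) :=
      ((continuous_fst.comp continuous_snd).tendsto _).comp hlim
    have hlim3 : Tendsto (fun j => (p j).2.2) atTop (𝓝 x) :=
      ((continuous_snd.comp continuous_snd).tendsto _).comp hlim
    have hn : ∀ᶠ j in atTop, (p j).2.1 = n := by
      rw [nhds_discrete] at hlim2
      exact tendsto_pure.mp hlim2
    -- the big compact set
    let S : Set (Compacts M) := insert K (range fun j => (p j).1)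
    have hS : IsCompact S := hlim1.isCompact_insert_range
    have hK' : IsCompact (⋃ L ∈ S, (L : Set M)) := Compacts.isCompact_biUnion_coe_of_isCompact hS
    let V : Set C(N, ℝ) := {f | ∀ m ∈ ⋃ L ∈ S, (L : Set M), dist (e f m) (e 0 m) < 1 / ((n : ℝ) + 1)}
    have hV : V ∈ 𝓝 (0 : C(N, ℝ)) := by
      have h1 := (hasBasis_nhds_metric (e 0)).mem_of_mem (i := (⋃ L ∈ S, (L : Set M), n))
        ⟨hK', trivial⟩
      exact he.continuous.continuousAt.preimage_mem_nhds h1
    obtain ⟨⟨L, n'⟩, ⟨hL, _⟩, hLV⟩ := (hasBasis_nhds_metric (0 : C(N, ℝ))).mem_iff.mp hV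
    have hmem : ∀ᶠ j in atTop, (p j).2.2 ∈ Subtype.val '' L := by
      filter_upwards [hn] with j hj
      obtain ⟨hxN, hf⟩ := hp j
      by_contra hno
      have hno' : (⟨(p j).2.2, hxN⟩ : N) ∉ L := fun h => hno ⟨_, h, rfl⟩
      obtain ⟨f, hf0, hf1, _⟩ := exists_continuous_zero_one_of_isClosed hL.isClosed
        (isClosed_singleton (x := (⟨(p j).2.2, hxN⟩ : N))) (disjoint_singleton_right.mpr hno')
      have h2 := hf ((2 : ℝ) • f) (by
        have hfV : (2 : ℝ) • f ∈ V := by
          apply hLV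
          intro y hy
          have : f y = 0 := hf0 hy
          simp only [ContinuousMap.coe_smul, Pi.smul_apply, this, smul_zero,
            ContinuousMap.coe_zero, Pi.zero_apply, dist_self]
          positivity
        intro m hm
        rw [hj]
        refine hfV m ?_
        exact mem_biUnion (mem_insert_of_mem _ (mem_range_self j)) hm)
      have h3 : f ⟨(p j).2.2, hxN⟩ = 1 := hf1 rfl
      simp only [ContinuousMap.coe_smul, Pi.smul_apply, h3, smul_eq_mul, mul_one] at h2
      norm_num at h2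
    have hclosed : IsClosed (Subtype.val '' L : Set ℝ) := (hL.image continuous_subtype_val).isClosed
    have hxL : x ∈ Subtype.val '' L := hclosed.mem_of_tendsto hlim3 hmem
    obtain ⟨y, _, rfl⟩ := hxL
    exact y.2

/-- No family of embeddings of all `C_k(N)`, `N ⊆ ℝ`, into one `C_k(M, Y)`. -/
theorem no_embeddings {M : Type u} {Y : Type v} [TopologicalSpace M] [MetrizableSpace M]
    [SecondCountableTopology M] [TopologicalSpace Y] [MetrizableSpace Y]
    (e : ∀ N : Set ℝ, C(N, ℝ) → C(M, Y)) (he : ∀ N, IsEmbedding (e N)) : False := by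
  let _ := metrizableSpaceMetric Y
  let W := Compacts M × ℕ × ℝ
  let D : Set ℝ → Set W := fun N => closure (codeSet N (e N))
  let F : Set ℝ → Set (countableBasis W) := fun N => {b | Disjoint b.1 (D N)}
  have hF : Function.Injective F := by
    intro N N' hNN'
    have hsub : ∀ N N' : Set ℝ, F N ⊆ F N' → D N' ⊆ D N := by
      intro N N' h w hw
      by_contra hno
      have hopen : IsOpen (D N)ᶜ := isClosed_closure.isOpen_compl
      obtain ⟨b, hb, hwb, hbD⟩ := (isBasis_countableBasis W).mem_nhds_iff.mp (hopen.mem_nhds hno)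
      have h1 : (⟨b, hb⟩ : countableBasis W) ∈ F N := by
        rw [mem_ofPred_eq]
        exact disjoint_left.mpr fun z hz hzD => hbD hz hzD
      have h2 := h h1
      rw [mem_ofPred_eq] at h2
      exact disjoint_left.mp h2 hwb hw
    have hD : D N = D N' :=
      Subset.antisymm (hsub N' N (by rw [hNN'])) (hsub N N' (by rw [hNN']))
    rw [codeSet_spec N (e N) (he N), codeSet_spec N' (e N') (he N')]
    ext x
    simp only [mem_ofPred_eq]
    constructor
    · rintro ⟨K, n, h⟩
      refine ⟨K, n, ?_⟩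
      change _ ∈ D N' at *
      rw [← hD]; exact h
    · rintro ⟨K, n, h⟩
      refine ⟨K, n, ?_⟩
      change _ ∈ D N at *
      rw [hD]; exact h
  have hcount : Countable (countableBasis W) := (countable_countableBasis W).to_subtype
  obtain ⟨i, hi⟩ := hcount.exists_injective_nat'
  have hG : Function.Injective (fun N : Set ℝ => i '' (F N)) := (image_injective.mpr hi).comp hF
  have hcard : Cardinal.mk (Set ℕ) = Cardinal.mk ℝ := by rw [Cardinal.mk_set_nat, Cardinal.mk_real]
  obtain ⟨φ⟩ := Cardinal.eq.mp hcard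
  exact Function.cantor_injective _ (φ.injective.comp hG)

theorem sepMetr_ulift (X : Type) [TopologicalSpace X] [MetrizableSpace X]
    [SecondCountableTopology X] : SepMetr.{u} (ULift.{u} X) inferInstance := by
  have : SecondCountableTopology (ULift.{u} X) := IsEmbedding.uliftDown.secondCountableTopology
  exact ⟨inferInstance, IsEmbedding.uliftDown.metrizableSpace⟩

theorem fn_mem_closure (N : Set ℝ) :
    CkClosure SepMetr.{u} C(ULift.{u} N, ULift.{u} ℝ) inferInstance := by
  intro 𝒴 h𝒴 hsub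
  have : SecondCountableTopology (ULift.{u} N) := IsEmbedding.uliftDown.secondCountableTopology
  exact h𝒴.fn _ _ (hsub _ _ (sepMetr_ulift N)) (hsub _ _ (sepMetr_ulift ℝ)) inferInstance

/-- The main theorem: the `C_k`-stable closure of the class of separable metrizable spaces has no
universal space. -/
theorem no_universal :
    ¬ ∃ (U : Type u) (_ : TopologicalSpace U), IsUniversalIn (CkClosure SepMetr.{u}) U := by
  rintro ⟨U, tU, hU, huniv⟩
  obtain ⟨A, B, _, _, _, _, _, _, j, hj⟩ := EE.of_mem_closure U tU hU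
  have key : ∀ N : Set ℝ, ∃ e : C(N, ℝ) → C(A, B), IsEmbedding e := by
    intro N
    obtain ⟨s, ⟨φ⟩⟩ := huniv _ (fn_mem_closure.{u} N)
    let ψ : C(N, ℝ) ≃ₜ C(ULift.{u} N, ULift.{u} ℝ) :=
      Homeomorph.arrowCongr Homeomorph.ulift.symm Homeomorph.ulift.symm
    exact ⟨_, hj.comp (IsEmbedding.subtypeVal.comp (φ.isEmbedding.comp ψ.isEmbedding))⟩
  choose e he using key
  exact no_embeddings e he

end Pool.Agent.Lib.MP_a55298_gt
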